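import Pool.Agent.Q58.FI.Corr
import Pool.Agent.Q58.FI.Eqs

/-!
MP_e06174_ag, Q1: varieties which correspond, with small degree, to subvarieties of very general
complete intersections have `κ ≥ 0` and are not uniruled.

Let `k` be a subfield of the complex numbers, with algebraic closure `k'` in `ℂ`. Let `V` be a closed
subset of `ℙⁿ`, defined over `k'`, of dimension at most `m` (for example `V = ℙⁿ`, `m = n`), and let
`F_a` be finitely many forms over `ℂ` of degrees `d_a`, whose coefficients are all together
algebraically independent over `k` (this holds for very general forms, if `k` is countable). Let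
`X₀` be the intersection of `V` with the hypersurfaces `F_a = 0`.

Let `W` be any projective variety of dimension `w ≥ 1`, with function field `L`, and let `T` be a
correspondence of degree `r` from `W` to `X₀`: an irreducible closed subset `T` of `W × X₀` of
dimension `w` which dominates `W`, with degree `r`, and such that the projection to `X₀` is
generically finite onto its image, a subvariety of `X₀` of dimension `w` (the function field `E` of
`T` is an extension of `L` of degree `r` and algebraic over the field of the ratios of the
coordinates `x`). For example `W` can be any variety which is dominated by a subvariety of `X₀` with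
degree `r`; nothing is assumed about the ramification and the singularities.

Let `2 m + 1 + N ≤ ∑ (d_a + 1) + w`. If `V = ℙⁿ` and `w = dim X₀` this means that
`N ≤ ∑ d_a - n - 1`, the largest number such that `K - N H` can be effective on `X₀`.

* If `r ≤ N` then `W` is of general type.
* If `r ≤ N + 1` then `p_g(W) > 0`, so that `κ(W) ≥ 0`, `K_W` is pseudo-effective and `W` is not
  uniruled.
* If all `d_a` are at most `N + 1`, and `V` is defined by forms of degree at most `N + 1`, then the
  same is true for all `r ≤ 2 N + 1`.

So the conjecture holds for all these varieties `W`. The case of the varieties which are dominated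
by a smooth hypersurface was known before (the hand-in `ImagesOfSmallDegree`).

The proof: on each subvariety of `X₀` of dimension `w` there is a rational canonical form whose
products with the forms of degree `N` are regular. If `p_g(W) = 0` then the traces to `W` of these
products are zero; so the `r ≤ 2 N + 1` conjugate points of `X₀` satisfy the Cayley–Bacharach
condition for the forms of degree `N`, hence at least `N + 2` of them are distinct and they are on a
line over `L`. The equations of `X₀` have degree at most `N + 1`, so the line is contained in `X₀`: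
but the subvarieties of `X₀` of dimension at least `w` are not uniruled.

The function-field language of the starting repository is used (`Pool/Agent/W602/GT/Defs.lean`,
`Pool/Agent/W602/GT/SpDefs.lean`, `Pool/Agent/W603/PS/Defs.lean` and
`Pool/Agent/W619/PQ/Defs.lean`). `Pool/Agent/Q58/FI/Eqs.lean`: `eqs V F` are the equations of `V`
together with the forms `F_a`.
-/

set_option autoImplicit false

namespace Pool.Agent.Results.MP_e06174_ag.CorrespondencesOfSmallDegree

open MvPolynomial FF
open Pool.Agent.TH145.MG (DimLE)
open Pool.Agent.W602.GT (coords GeneralType Divisorial RegAt IsPluri KodGe Psef)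
open Pool.Agent.W619.PQ (IsUniruled)
open Pool.Agent.Q58.FI (eqs)

/-- The geometric genus is zero: the only canonical form which is regular at all prime divisors is
`0`. -/
def GenusZero (L : Type) [Field L] [Algebra ℂ L] (w : ℕ) : Prop :=
  ∀ ω : (Fin w → Derivation ℂ L L) → L, IsPluri 1 ω →
    (∀ P : Place ℂ L, Divisorial w P → RegAt P ω) → ∀ D, ω D = 0

theorem result {k : Type} [Field k] [Algebra k ℂ] {n m N w : ℕ} (hw : 1 ≤ w)
    -- a closed subset of projective space, of dimension at most `m`
    (V : Set (MvPolynomial (Fin (n + 1)) (algebraicClosure k ℂ)))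
    (hVh : ∀ f ∈ V, ∃ e, f.IsHomogeneous e) (hV : DimLE (algebraicClosure k ℂ) V m)
    -- forms of degrees `d a`, whose coefficients are algebraically independent over `k`
    {A : Type} [Fintype A] (d : A → ℕ) (hd : 2 * m + 1 + N ≤ ∑ a, (d a + 1) + w)
    (F : A → MvPolynomial (Fin (n + 1)) ℂ) (hF : ∀ a, (F a).IsHomogeneous (d a))
    (hgen : AlgebraicIndependent k
      fun p : (a : A) × {I : Fin (n + 1) →₀ ℕ // I.degree = d a} => (F p.1).coeff p.2.1)
    -- a variety of dimension `w` with function field `L`
    (L : Type) [Field L] [Algebra ℂ L] [Algebra.EssFiniteType ℂ L] (hL : Algebra.trdeg ℂ L = w)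
    -- a correspondence with function field `E`, with the generic point `x`
    (E : Type) [Field E] [Algebra ℂ E] [Algebra L E] [IsScalarTower ℂ L E]
    [FiniteDimensional L E] (x : Fin (n + 1) → E) (hx : x ≠ 0)
    (hxX : ∀ p, aeval x (eqs V F p) = 0) (halg : Algebra.IsAlgebraic (coords ℂ x) E) :
    (Module.finrank L E ≤ N → GeneralType ℂ L w) ∧
    (Module.finrank L E ≤ N + 1 ∨ (Module.finrank L E ≤ 2 * N + 1 ∧ (∀ a, d a ≤ N + 1) ∧
        ∀ f ∈ V, ∃ e ≤ N + 1, f.IsHomogeneous e) →
      ¬ GenusZero L w ∧ KodGe ℂ L w (fun _ => False) 0 ∧ Psef ℂ L w (fun _ => False) ∧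
        ¬ IsUniruled ℂ L w) := by
  have h := Pool.Agent.Q58.FI.corr (N := N) hVh hV hd hF hgen.algebraicClosure hw hL hx hxX halg
  refine ⟨h.1, fun hr => ?_⟩
  obtain ⟨θ, hθ, hreg, D, hD⟩ := h.2 hr
  have hK : KodGe ℂ L w (fun _ => False) 0 :=
    ⟨1, one_pos, fun _ => θ, fun _ => ⟨hθ, fun P hP D' hD' =>
      hreg P hP D' fun i => Pool.Agent.TH466.QG.derReg_of_log (hD' i),
      fun P hP _ => hreg P hP⟩, D, hD, algebraicIndependent_empty_type⟩
  have hP : Psef ℂ L w (fun _ => False) := Pool.Agent.W602.GT.psef_of_kodGe hK
  exact ⟨fun hg => hD (hg θ hθ hreg D), hK, hP, fun hu =>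
    (Pool.Agent.W619.Y.uniruled_neg w hL hu).1 ((Pool.Agent.TH466.QG.psef_iff w).1 hP)⟩

end Pool.Agent.Results.MP_e06174_ag.CorrespondencesOfSmallDegree
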