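import Pool.Agent.Q58.CI.Any

/-!
MP_e06174_ag, Q1: images of small degree of smooth complete intersections, and of all varieties
which are defined by equations of small degree.

Let `X` be a projective variety of dimension `w ≥ 1`, and `W` a variety of the same dimension, with
function field `L`, which corresponds to `X` with degree `r`: there is a variety `T`, with function
field `E`, with a dominant rational map of degree `r` to `W` and a dominant rational map to `X`, so
that `E` is an extension of `L` of degree `r` and an algebraic extension of the function field of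
`X`. For example there is a dominant rational map `X ⇢ W` of degree `r`; nothing is assumed about
its ramification, and nothing about `W`.

**Smooth complete intersections.** Let `X` be a smooth complete intersection of hypersurfaces of
degrees `d_a` in `ℙⁿ`, and `N = ∑ d_a - n - 1 ≥ 0`.

* If `r ≤ N` then `W` is of general type.
* If `r ≤ N + 1` then `p_g(W) > 0`, so that `κ(W) ≥ 0`, `K_W` is pseudo-effective and `W` is not
  uniruled.
* If `d_a ≤ N + 1` for all `a` (this means that the sum of the other degrees is at least `n`, for
  all `a`; this needs codimension at least 2), then the same is true for all `r ≤ 2 N + 1`.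

For example let `X` be a smooth complete intersection of `c ≥ 2` hypersurfaces of degree `d`, where
`(c - 1) d ≥ n`: then no variety with `p_g = 0` is dominated by `X` with degree at most
`2 c d - 2 n - 1`.

**All varieties.** Let `X ⊆ ℙⁿ` be any closed subvariety (arbitrarily singular), and suppose that
there is a nonzero rational canonical form `ω` on `X` such that `A ω` is regular on the smooth
projective models for all forms `A` of degree `N` (in other words, `K - N H` is effective on a
resolution of singularities, up to exceptional divisors and base points). Then the same three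
statements hold, where the condition in the last one is that `X` is set-theoretically the
intersection of hypersurfaces of degree at most `N + 1`.

So the conjecture holds for all these varieties `W`: none of them is uniruled and `κ(W) ≥ 0`. The
case `r ≤ N + 1` for hypersurfaces was known before (the hand-in `ImagesOfSmallDegree`; the
projection of a hypersurface from one of its points is a dominant rational map of degree `N + w + 1`
to projective space, so that there is no such statement for all `r ≤ 2 N + 1` in codimension 1).

The proof: if `p_g(W) = 0` then the traces to `W` of the canonical forms `A ω` are zero. So the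
`r ≤ 2 N + 1` conjugate points satisfy the Cayley–Bacharach condition for the forms of degree `N`;
hence at least `N + 2` of them are distinct, and they are on a line over `L`. The equations of `X`
have degree at most `N + 1`, so the line is contained in `X`, and `X` would be uniruled.

The function-field language of the starting repository is used (`Pool/Agent/W602/GT/Defs.lean`,
`Pool/Agent/W602/GT/KDefs.lean`, `Pool/Agent/W602/GT/PsefDefs.lean` and
`Pool/Agent/W619/PQ/Defs.lean`; `coords` in `Pool/Agent/W602/GT/SpDefs.lean`).
-/

set_option autoImplicit false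

namespace Pool.Agent.Results.MP_e06174_ag.ImagesOfCompleteIntersections

open MvPolynomial FF
open Pool.Agent.W602.GT (coords GeneralType Divisorial RegAt IsPluri KodGe Psef)
open Pool.Agent.W619.PQ (IsUniruled)

/-- The geometric genus is zero: the only canonical form which is regular at all prime divisors is
`0`. -/
def GenusZero (L : Type) [Field L] [Algebra ℂ L] (w : ℕ) : Prop :=
  ∀ ω : (Fin w → Derivation ℂ L L) → L, IsPluri 1 ω →
    (∀ P : Place ℂ L, Divisorial w P → RegAt P ω) → ∀ D, ω D = 0

/-- The varieties of dimension `w` with function field `L` have `p_g > 0` and `κ ≥ 0`, their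
canonical divisor is pseudo-effective and they are not uniruled. -/
def Good (L : Type) [Field L] [Algebra ℂ L] (w : ℕ) : Prop :=
  ¬ GenusZero L w ∧ KodGe ℂ L w (fun _ => False) 0 ∧ Psef ℂ L w (fun _ => False) ∧
    ¬ IsUniruled ℂ L w

/-- The projective scheme `F a = 0` is smooth, of codimension equal to the number of equations (or
empty). -/
def SmoothCI {n : ℕ} {A : Type} (F : A → MvPolynomial (Fin (n + 1)) ℂ) : Prop :=
  ∀ z : Fin (n + 1) → ℂ, z ≠ 0 → (∀ a, eval z (F a) = 0) →
    LinearIndependent ℂ fun (a : A) (j : Fin (n + 1)) => eval z (pderiv j (F a))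

/-- The variety with the generic point `y` is set-theoretically the intersection of hypersurfaces
of degree at most `e`: all forms which vanish on the variety vanish at the points `z` where the forms
of degree at most `e` which vanish on the variety vanish. -/
def CutBy {M : Type} [Field M] [Algebra ℂ M] {n : ℕ} (e : ℕ) (y : Fin (n + 1) → M) : Prop :=
  ∀ z : Fin (n + 1) → ℂ, z ≠ 0 →
    (∀ (G : MvPolynomial (Fin (n + 1)) ℂ) (e' : ℕ), e' ≤ e → G.IsHomogeneous e' →
      aeval y G = 0 → eval z G = 0) →
    ∀ (G : MvPolynomial (Fin (n + 1)) ℂ) (e' : ℕ), G.IsHomogeneous e' →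
      aeval y G = 0 → eval z G = 0

theorem good_of {L : Type} [Field L] [Algebra ℂ L] [Algebra.EssFiniteType ℂ L] {w : ℕ} (hL : Algebra.trdeg ℂ L = w)
    (h : ∃ θ : (Fin w → Derivation ℂ L L) → L, IsPluri 1 θ ∧
      (∀ P : Place ℂ L, Divisorial w P → RegAt P θ) ∧ ∃ D, θ D ≠ 0) : Good L w := by
  obtain ⟨θ, hθ, hreg, D, hD⟩ := h
  have hK : KodGe ℂ L w (fun _ => False) 0 :=
    ⟨1, one_pos, fun _ => θ, fun _ => ⟨hθ, fun P hP D' hD' =>
      hreg P hP D' fun i => Pool.Agent.TH466.QG.derReg_of_log (hD' i),
      fun P hP _ => hreg P hP⟩, D, hD, algebraicIndependent_empty_type⟩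
  have hP : Psef ℂ L w (fun _ => False) := Pool.Agent.W602.GT.psef_of_kodGe hK
  exact ⟨fun hg => hD (hg θ hθ hreg D), hK, hP, fun hu =>
    (Pool.Agent.W619.Y.uniruled_neg w hL hu).1 ((Pool.Agent.TH466.QG.psef_iff w).1 hP)⟩

theorem result {n w N : ℕ} (hw : 1 ≤ w)
    -- a variety `W` of dimension `w` with function field `L`, and an extension `E` of degree `r`
    (L : Type) [Field L] [Algebra ℂ L] [Algebra.EssFiniteType ℂ L] (hL : Algebra.trdeg ℂ L = w)
    (E : Type) [Field E] [Algebra ℂ E] [Algebra L E] [IsScalarTower ℂ L E]
    [FiniteDimensional L E] :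
    -- smooth complete intersections of dimension `w` in projective `n`-space
    (∀ (A : Type) [Fintype A] (F : A → MvPolynomial (Fin (n + 1)) ℂ) (d : A → ℕ),
      (∀ a, (F a).IsHomogeneous (d a)) → SmoothCI F → w + Fintype.card A = n →
      N + n + 1 = ∑ a, d a →
      -- a point of the complete intersection over `E`, which generates a subfield `ℂ(x)` over which
      -- `E` is algebraic
      ∀ x : Fin (n + 1) → E, x ≠ 0 → (∀ a, aeval x (F a) = 0) →
      Algebra.IsAlgebraic (coords ℂ x) E →
      (Module.finrank L E ≤ N → GeneralType ℂ L w) ∧
      (Module.finrank L E ≤ N + 1 ∨ (Module.finrank L E ≤ 2 * N + 1 ∧ ∀ a, d a ≤ N + 1) →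
        Good L w)) ∧
    -- all varieties `X` in projective `n`-space, with function field `M` and generic point `y`
    (∀ (M : Type) [Field M] [Algebra ℂ M] [Algebra M E] [IsScalarTower ℂ M E],
      Algebra.trdeg ℂ M = w → Algebra.IsAlgebraic M E →
      ∀ (y : Fin (n + 1) → M) (j0 : Fin (n + 1)), y j0 = 1 →
      IntermediateField.adjoin ℂ (Set.range y) = ⊤ →
      ∀ ω : (Fin w → Derivation ℂ M M) → M, IsPluri 1 ω → (∃ D, ω D ≠ 0) →
      (∀ (f : Fin N → Fin (n + 1)) (P : Place ℂ M), Divisorial w P →
        RegAt P (fun D => (∏ k, y (f k)) * ω D)) →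
      (Module.finrank L E ≤ N → GeneralType ℂ L w) ∧
      (Module.finrank L E ≤ N + 1 ∨ (Module.finrank L E ≤ 2 * N + 1 ∧ CutBy (N + 1) y) →
        Good L w)) := by
  refine ⟨fun A _ F d hd hsm hp hN x hx hxF halg => ?_,
    fun M _ _ _ _ hM halg y j0 hy1 hgen ω hω hω0 hreg => ?_⟩
  · have h := Pool.Agent.Q58.CI.corr_ci (N := N) hw hd hsm hN hp hL hx hxF halg
    exact ⟨h.1, fun hr => good_of hL (h.2 hr)⟩
  · have h := Pool.Agent.Q58.CI.corr_any (L := L) (E := E) (N := N) hw hM hy1 hgen hω hω0 hreg halg
    exact ⟨h.1, fun hr => good_of hL (h.2 hr)⟩

end Pool.Agent.Results.MP_e06174_ag.ImagesOfCompleteIntersections
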