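import Pool.Agent.Q298.EF.IsoGeo

/-!
# Isotrivial fibrations: sections of multiples of the canonical divisor, or uniruled

Let `X` be a projective variety with terminal singularities (for instance a manifold) of dimension
`d + e`, and `|V|` a linear system on `X` without fixed components, of dimension `n = d + k`, whose
rational map `X ⇢ ℙⁿ` has an image `Y` of dimension `d ≥ 1`; `Y` may be any nondegenerate variety of
dimension `d`, for instance rational. Suppose:

* (the members) `D i` (`i < q`) are finitely many members of `|V|`, in arbitrary position, which span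
  `V`, and `V` is not the direct sum of two nonzero subspaces such that each `D i` belongs to one of
  them; at every prime divisor `P` of `X` which is a component of some `D i`, some `D i'` has the
  multiplicity at least `s`, where `2 s > R (k + 1) (k + 2)` with `R = n + 2`, or `R = n + 1` if
  there are at least `n + 3` different members;
* (the fibres) `X ⇢ Y` is isotrivial: for some variety `Y''` with a generically finite map to `Y`,
  ramified anywhere, the main component `X''` of the fibre product `X ×_Y Y''` (its function field is
  `K'' = K(α)`, where `α` is algebraic over the function field of `Y`) is birational to a product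
  `F₀ × Y'`, where `F₀` is an arbitrary projective manifold of dimension `e` and `Y'` is generically
  finite over `Y''` (its function field is the algebraic closure of the one of `Y` in `K''`).

Then

* if `F₀` is uniruled, `X` is uniruled;
* `κ(X) ≥ d + a` for every `a ≥ 0` with `κ(F₀) ≥ a`.

So `κ(X) = -∞` if and only if `X` is uniruled, whenever this equivalence holds for `F₀`, in
particular if `F₀` is a curve, a surface or a threefold; and `κ(X) = d + κ(F₀)` if `κ(F₀) ≥ 0`
(`≤` is the easy addition). Here `X` and `Y` have arbitrary dimensions, and the fibration `X ⇢ Y` may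
have arbitrary multiple and singular fibres.

The function-field language of the starting repository is used. `K` is the function field of `X`;
the prime divisors of `X` are places `P` of `K` (`Place`, `Divisorial`), `P.ord` is the order along
`P`, and `X` is given by the set of its prime divisors. The linear system is given by the finite
dimensional space `V` of rational functions: if `a` is the minimum of the orders at `P` of the
members of `V` then the multiplicity of `P` in the divisor of the system which is given by `f ∈ V` is
`P.ord f - a`. A section of `N K_X` is an `N`-canonical form `ω` (`IsPluri`), a function of `d + e`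
rational vector fields, whose value on vector fields that are regular at `P` is regular at `P`, for
all prime divisors `P` of `X`. For `F₀`, with the function field `M`, all divisorial places of `M`
are taken: these are the sections of `N K` on a smooth projective model.

Proof (`Pool.Agent.Q298.EF`). The pluricanonical forms `η` of `F₀` are pluricanonical forms along the
fibres of `F₀ × Y'`. They are regular at all divisors of all varieties which are generically finite
over `F₀ × Y'` (vertical ones included) on vector fields along the fibres (`iso_low`), because the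
pull-back of a regular differential form is regular (`pYLOC`). Since a vector field along the fibres
of `X ⇢ Y` lifts to `X''`, where the extension is unramified at the horizontal divisors and where at
the vertical ones it is enough to treat logarithmic vector fields, symmetric functions of the
conjugates of the forms are such forms on `X` (`Pool.Agent.Y191.push`). Their products with
generalised Wronskians of `V` are the sections. The second part: a product with a uniruled variety is
uniruled, and so are its images under generically finite maps.
-/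

set_option autoImplicit false

open FF Pool.Agent.W602.GT

namespace Pool.Agent.Results.MP_e06174_ag.IsotrivialFibrations

/-- The function field of the image of the rational map which is given by the linear system `V`: the
field generated by the quotients of the members. -/
noncomputable def ImageField {K : Type} [Field K] [Algebra ℂ K] (V : Submodule ℂ K) :
    IntermediateField ℂ K :=
  IntermediateField.adjoin ℂ {y : K | ∃ f ∈ V, ∃ g ∈ V, y = f / g}

/-- `V` is the direct sum of two nonzero subspaces such that each `φ i` belongs to one of them. -/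
def Splits {q : ℕ} {K : Type} [Field K] [Algebra ℂ K] (V : Submodule ℂ K) (φ : Fin q → K) : Prop :=
  ∃ V1 V2 : Submodule ℂ K, V1 ≠ ⊥ ∧ V2 ≠ ⊥ ∧ Disjoint V1 V2 ∧ V1 ⊔ V2 = V ∧
    ∀ i, φ i ∈ V1 ∨ φ i ∈ V2

/-- There are `r` members `φ i` of which no two are proportional. -/
def Different (r : ℕ) {q : ℕ} {K : Type} [Field K] [Algebra ℂ K] (φ : Fin q → K) : Prop :=
  ∃ τ : Fin r → Fin q, ∀ i j, i ≠ j → ∀ t : ℂ, φ (τ i) ≠ t • φ (τ j)

/-- The condition on the multiplicities, on a variety `X` of dimension `w`: if the prime divisor `P`
of `X` is a component of one of the divisors `D i` (the order of `φ i` at `P` is not the minimum `a`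
of the orders of the members of `V`), then some `D i` has multiplicity at least `s` at `P`. -/
def Multiplicities (w : ℕ) {q : ℕ} {K : Type} [Field K] [Algebra ℂ K] (V : Submodule ℂ K)
    (φ : Fin q → K) (X : Set (Place ℂ K)) (s : ℕ) : Prop :=
  ∀ P ∈ X, Divisorial w P → ∀ a : ℤ, (∀ f ∈ V, f = 0 ∨ a ≤ P.ord f) →
    (∃ f ∈ V, f ≠ 0 ∧ P.ord f = a) → (∃ i, P.ord (φ i) ≠ a) → ∃ i, a + s ≤ P.ord (φ i)

/-- The image of the subfield `L` of `K` in the extension `K'`. -/
noncomputable def Up {K : Type} (K' : Type) [Field K] [Field K'] [Algebra ℂ K] [Algebra ℂ K']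
    [Algebra K K'] [IsScalarTower ℂ K K'] (L : IntermediateField ℂ K) : IntermediateField ℂ K' :=
  L.map (IsScalarTower.toAlgHom ℂ K K')

/-- `ω` is a section of `N K_X`, where `X` of dimension `w` is given by the set of its prime divisors:
an `N`-canonical form whose values on vector fields which are regular at `P` are regular at `P`, for
all prime divisors `P` of `X`. -/
def IsSection {K : Type} [Field K] [Algebra ℂ K] (w : ℕ) (X : Set (Place ℂ K)) (N : ℕ)
    (ω : (Fin w → Derivation ℂ K K) → K) : Prop :=
  IsPluri N ω ∧ ∀ P ∈ X, Divisorial w P → ∀ D : Fin w → Derivation ℂ K K,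
    (∀ i, DerReg P (D i)) → P.Reg (ω D)

/-- `κ (X) ≥ κ`: some positive multiple of `K_X` has sections with `κ` algebraically independent
ratios (a nonzero section, if `κ = 0`). -/
def KodairaGe {K : Type} [Field K] [Algebra ℂ K] (w : ℕ) (X : Set (Place ℂ K)) (κ : ℕ) : Prop :=
  ∃ N : ℕ, 0 < N ∧ ∃ ω : Fin (κ + 1) → (Fin w → Derivation ℂ K K) → K,
    (∀ j, IsSection w X N (ω j)) ∧
    ∃ D, ω 0 D ≠ 0 ∧ AlgebraicIndependent ℂ (fun i : Fin κ => ω i.succ D / ω 0 D)

/-- Uniruled function fields of transcendence degree `w`: `K` embeds into the field of rational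
functions `M(t)` over the function field `M` of a variety of dimension `w - 1`. -/
def IsUniruled (K : Type) [Field K] [Algebra ℂ K] (w : ℕ) : Prop :=
  ∃ (M : Type) (_ : Field M) (_ : Algebra ℂ M), Algebra.EssFiniteType ℂ M ∧
    Algebra.trdeg ℂ M + 1 = w ∧ Nonempty (K →ₐ[ℂ] RatFunc M)

/-- **Isotrivial fibrations.** Let `K` be the function field of a projective variety `X` with
terminal singularities of dimension `d + e`, `V` a linear system of dimension `d + k` on `X` whose
rational map has an image `Y` of dimension `d ≥ 1`; `φ i` nonzero members which span `V`, such that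
`V` does not split into a direct sum, `R = d + k + 2`, or `R = d + k + 1` if there are `d + k + 3`
different members, and `s` a number with `2 s > R (k + 1) (k + 2)` for which the condition on the
multiplicities holds. Let `K' = K (α)`, where `α` is algebraic over the function field of `Y`, be
generated by the elements which are algebraic over the function field of `Y` and by the function
field `M` of a variety `F₀` of dimension `e`. If `F₀` is uniruled then `X` is uniruled, and
`κ (F₀) ≥ a` implies `κ (X) ≥ d + a`. -/
theorem result (d e k q : ℕ) (hd : 1 ≤ d) (K : Type) [Field K]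
    [Algebra ℂ K] [Algebra.EssFiniteType ℂ K] (hK : Algebra.trdeg ℂ K = (d + e : ℕ))
    (V : Submodule ℂ K) (hn : Module.finrank ℂ V = d + k + 1)
    (hV : Algebra.trdeg ℂ (ImageField V) = d)
    (φ : Fin q → K) (hφ0 : ∀ i, φ i ≠ 0) (hφ : Submodule.span ℂ (Set.range φ) = V)
    (hγ : ¬ Splits V φ)
    (R : ℕ) (hR : R = d + k + 2 ∨ (Different (d + k + 3) φ ∧ R = d + k + 1))
    (X : Set (Place ℂ K)) (s : ℕ) (hs : R * ((k + 1) * (k + 2)) < 2 * s)
    (h : Multiplicities (d + e) V φ X s)
    (K' : Type) [Field K'] [Algebra ℂ K'] [Algebra K K'] [IsScalarTower ℂ K K'] (α : K')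
    (hα : IsAlgebraic (Up K' (ImageField V)) α) (hαt : IntermediateField.adjoin K {α} = ⊤)
    (M : IntermediateField ℂ K') [Algebra.EssFiniteType ℂ M] (hM : Algebra.trdeg ℂ M = e)
    (hprod : IntermediateField.adjoin ℂ
      ({a | IsAlgebraic (Up K' (ImageField V)) a} ∪ (M : Set K')) = ⊤) :
    (IsUniruled M e → IsUniruled K (d + e)) ∧
      ∀ a : ℕ, KodairaGe e (Set.univ : Set (Place ℂ M)) a → KodairaGe (d + e) X (d + a) := by
  have hαK : IsAlgebraic K α := by
    have h1 : ∀ z ∈ Up K' (ImageField V), ∃ a : K, algebraMap K K' a = z := by
      intro z hz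
      unfold Up at hz
      rw [IntermediateField.mem_map] at hz
      obtain ⟨a, -, ha⟩ := hz
      exact ⟨a, ha⟩
    obtain ⟨p, hp0, hp⟩ := hα
    obtain ⟨p', hp'⟩ : ∃ p' : Polynomial K, p'.map (algebraMap K K') =
        p.map (algebraMap (Up K' (ImageField V)) K') := by
      refine (Polynomial.mem_lifts _).1 ((Polynomial.lifts_iff_coeff_lifts _).2 fun i => ?_)
      rw [Polynomial.coeff_map]
      obtain ⟨a, ha⟩ := h1 _ (p.coeff i).2
      exact ⟨a, ha⟩
    refine ⟨p', ?_, ?_⟩
    · rintro rfl
      rw [Polynomial.map_zero] at hp'
      exact hp0 ((Polynomial.map_eq_zero _).1 hp'.symm)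
    · rw [← Polynomial.eval_map_algebraMap, hp', Polynomial.eval_map_algebraMap]
      exact hp
  have hfin : FiniteDimensional K K' := by
    have h1 : FiniteDimensional K (IntermediateField.adjoin K {α}) :=
      IntermediateField.adjoin.finiteDimensional hαK.isIntegral
    rw [hαt] at h1
    exact Module.Finite.of_surjective
      (IntermediateField.topEquiv : (⊤ : IntermediateField K K') ≃ₐ[K] K').toLinearMap
      (IntermediateField.topEquiv).surjective
  have htop : ∀ z : K', ∃ p : Polynomial K, z = Polynomial.aeval α p := by
    intro z
    have h1 : z ∈ IntermediateField.adjoin K {α} := by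
      rw [hαt]
      trivial
    rw [← IntermediateField.mem_toSubalgebra,
      IntermediateField.adjoin_simple_toSubalgebra_of_isAlgebraic hαK,
      Algebra.adjoin_singleton_eq_range_aeval] at h1
    obtain ⟨p, hp⟩ := h1
    exact ⟨p, hp.symm⟩
  have hgen : Pool.Agent.Y172.acl ℂ (Up K' (ImageField V) : Set K') ⊔ M = ⊤ := by
    rw [eq_top_iff, ← hprod, IntermediateField.adjoin_le_iff]
    rintro z (hz | hz)
    · refine (le_sup_left : Pool.Agent.Y172.acl ℂ (Up K' (ImageField V) : Set K') ≤ _) ?_
      rw [Pool.Agent.Y172.mem_acl, IntermediateField.adjoin_self]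
      exact hz
    · exact (le_sup_right : M ≤ _) hz
  obtain ⟨hU, hF⟩ := Pool.Agent.Q298.EF.iso_geo hK hV (α := α) hα htop hM hgen X
  refine ⟨hU, fun a hMa => ?_⟩
  obtain ⟨m₀, hm₀, η, hη, hne₀⟩ := hMa
  obtain ⟨m, hm, θ, hθ, hne⟩ := hF m₀ a hm₀ η
    (fun l => ⟨(hη l).1, fun P hP => (hη l).2 P (Set.mem_univ _) hP⟩) hne₀
  have hs' : (R : ℝ) * (((k : ℝ) + 1) * ((k : ℝ) + 2)) < 2 * (s : ℝ) := by exact_mod_cast hs
  obtain ⟨N, hN, ω, h5, h6⟩ := Pool.Agent.Q298.EF.lin_one hd hK hn hV hφ0 hφ hγ hR X
    (fun _ => 0) (fun _ => 0) (fun _ => 0) (fun _ _ => le_rfl) (fun _ _ => by simp) hs'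
    (fun P hPX hPd a ha hb hc => by
      obtain ⟨i, h5⟩ := h P hPX hPd a ha hb hc
      refine ⟨i, ?_⟩
      have h7 : (s : ℤ) ≤ P.ord (φ i) - a := by omega
      have h8 : ((s : ℤ) : ℝ) ≤ ((P.ord (φ i) - a : ℤ) : ℝ) := by exact_mod_cast h7
      simpa using h8) hm (θ := θ) hθ hne
  refine ⟨N, hN, ω, fun j => ⟨(h5 j).1, fun P hPX hPd D hD => ?_⟩, h6⟩
  rcases (h5 j).2 P hPX hPd D hD with h7 | h7
  · exact Or.inl h7
  · right
    have h8 : (0 : ℝ) ≤ (P.ord (ω j D) : ℝ) := by simpa using h7
    exact_mod_cast h8

end Pool.Agent.Results.MP_e06174_ag.IsotrivialFibrations
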